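import Pool.Agent.TH883.CC.J2569a

/-!
# Halving a square tiling (helper883, job 2569)
-/

set_option autoImplicit false

universe u

namespace Pool.Agent.TH317.CC.TH883

open Pool.Agent.TH317.CC

section
variable {F : Type u} (nb : F × Fin 4 → F × Fin 4)

/-- the gluing of the quarters; the quarter `(f, a)` is the one at the corner `a` of `f` -/
def nbh (x : (F × Fin 4) × Fin 4) : (F × Fin 4) × Fin 4 :=
  if x.2 = x.1.2 then (((nb (x.1.1, x.2)).1, (nb (x.1.1, x.2)).2 + 1), (nb (x.1.1, x.2)).2)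
  else if x.2 = x.1.2 + 1 then ((x.1.1, x.1.2 + 1), x.1.2 + 3)
  else if x.2 = x.1.2 + 2 then ((x.1.1, x.1.2 + 3), x.1.2)
  else (((nb (x.1.1, x.2)).1, (nb (x.1.1, x.2)).2), (nb (x.1.1, x.2)).2)

theorem nbh0 (f : F) (a : Fin 4) :
    nbh nb ((f, a), a) = (((nb (f, a)).1, (nb (f, a)).2 + 1), (nb (f, a)).2) := by
  simp [nbh]

theorem nbh1 (f : F) (a : Fin 4) : nbh nb ((f, a), a + 1) = ((f, a + 1), a + 3) := by
  simp [nbh]

theorem nbh2 (f : F) (a : Fin 4) : nbh nb ((f, a), a + 2) = ((f, a + 3), a) := by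
  have h1 : a + 2 ≠ a := (by decide : ∀ a : Fin 4, a + 2 ≠ a) a
  have h2 : a + 2 ≠ a + 1 := (by decide : ∀ a : Fin 4, a + 2 ≠ a + 1) a
  simp [nbh, h1, h2]

theorem nbh3 (f : F) (a : Fin 4) :
    nbh nb ((f, a), a + 3) = (((nb (f, a + 3)).1, (nb (f, a + 3)).2), (nb (f, a + 3)).2) := by
  have h1 : a + 3 ≠ a := (by decide : ∀ a : Fin 4, a + 3 ≠ a) a
  have h2 : a + 3 ≠ a + 1 := (by decide : ∀ a : Fin 4, a + 3 ≠ a + 1) a
  have h3 : a + 3 ≠ a + 2 := (by decide : ∀ a : Fin 4, a + 3 ≠ a + 2) a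
  simp [nbh, h1, h2, h3]

theorem nbh3' (f : F) (k : Fin 4) :
    nbh nb ((f, k + 1), k) = (((nb (f, k)).1, (nb (f, k)).2), (nb (f, k)).2) := by
  have h := nbh3 nb f (k + 1)
  have e : k + 1 + 3 = k := (by decide : ∀ k : Fin 4, k + 1 + 3 = k) k
  rwa [e] at h

end

theorem four (a k : Fin 4) : k = a ∨ k = a + 1 ∨ k = a + 2 ∨ k = a + 3 := by
  revert a k; decide

/-- the positions of the quarters -/
def pos : Fin 4 ≃ Fin 2 × Fin 2 where
  toFun a := (![0, 1, 1, 0] a, ![0, 0, 1, 1] a)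
  invFun p := if p.2 = 0 then (if p.1 = 0 then 0 else 1) else (if p.1 = 0 then 3 else 2)
  left_inv := by intro a; revert a; decide
  right_inv := by intro p; revert p; decide

theorem pos_eq (a : Fin 4) : (((pos a).1 : ℕ) : ℝ) = (side a 0).1 ∧
    (((pos a).2 : ℕ) : ℝ) = (side a 0).2 := by
  fin_cases a <;> simp [pos, side]

variable {M : Type u} [MetricSpace M] (T : SqTiling M)

/-- the quarters -/
noncomputable def sqh (c : T.F × Fin 4) (p : ℝ × ℝ) : M := T.sq c.1 (ph c.2 p)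

theorem sqh_same {f : T.F} {a b : Fin 4} {p q : ℝ × ℝ} (hp : p ∈ I2) (hq : q ∈ I2) :
    sqh T (f, a) p = sqh T (f, b) q ↔ ph a p = ph b q :=
  ⟨fun h => T.inj f (ph_mem hp) (ph_mem hq) h, fun h => by unfold sqh; simp only [h]⟩

theorem nbh_nbh (x : (T.F × Fin 4) × Fin 4) : nbh T.nb (nbh T.nb x) = x := by
  obtain ⟨⟨f, a⟩, k⟩ := x
  rcases four a k with rfl | rfl | rfl | rfl
  · rw [nbh0, nbh3', Prod.mk.eta, T.nb_nb]
  · rw [nbh1]
    have h := nbh2 T.nb f (a + 1)
    have e1 : a + 1 + 2 = a + 3 := (by decide : ∀ a : Fin 4, a + 1 + 2 = a + 3) a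
    have e2 : a + 1 + 3 = a := (by decide : ∀ a : Fin 4, a + 1 + 3 = a) a
    rwa [e1, e2] at h
  · rw [nbh2]
    have h := nbh1 T.nb f (a + 3)
    have e1 : a + 3 + 1 = a := (by decide : ∀ a : Fin 4, a + 3 + 1 = a) a
    have e2 : a + 3 + 3 = a + 2 := (by decide : ∀ a : Fin 4, a + 3 + 3 = a + 2) a
    rwa [e1, e2] at h
  · rw [nbh3, nbh0, Prod.mk.eta, T.nb_nb]
    have e1 : a + 3 + 1 = a := (by decide : ∀ a : Fin 4, a + 3 + 1 = a) a
    simp only [e1]

theorem nbh_ne (x : (T.F × Fin 4) × Fin 4) : (nbh T.nb x).1 ≠ x.1 := by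
  obtain ⟨⟨f, a⟩, k⟩ := x
  rcases four a k with rfl | rfl | rfl | rfl
  · rw [nbh0]
    intro h
    exact T.nb_ne _ (Prod.ext_iff.1 h).1
  · rw [nbh1]
    intro h
    have h2 : a + 1 = a := (Prod.ext_iff.1 h).2
    exact absurd h2 ((by decide : ∀ a : Fin 4, a + 1 ≠ a) a)
  · rw [nbh2]
    intro h
    have h2 : a + 3 = a := (Prod.ext_iff.1 h).2
    exact absurd h2 ((by decide : ∀ a : Fin 4, a + 3 ≠ a) a)
  · rw [nbh3]
    intro h
    exact T.nb_ne _ (Prod.ext_iff.1 h).1

theorem glueh (f : T.F × Fin 4) (k : Fin 4) (t : ℝ) (ht : t ∈ Set.Icc (0 : ℝ) 1) :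
    sqh T f (side k t) = sqh T (nbh T.nb (f, k)).1 (side (nbh T.nb (f, k)).2 (1 - t)) := by
  obtain ⟨f, a⟩ := f
  obtain ⟨ht0, ht1⟩ := ht
  rcases four a k with rfl | rfl | rfl | rfl
  · rw [nbh0]
    simp only [sqh]
    rw [ph_side0, ph_side3, T.glue f k (t / 2) ⟨by linarith, by linarith⟩]
    congr 2
    ring
  · rw [nbh1]
    simp only [sqh]
    rw [ph_side1]
  · rw [nbh2]
    simp only [sqh]
    have h := ph_side1 (a + 3) (1 - t)
    have e1 : a + 3 + 1 = a := (by decide : ∀ a : Fin 4, a + 3 + 1 = a) a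
    have e2 : a + 3 + 3 = a + 2 := (by decide : ∀ a : Fin 4, a + 3 + 3 = a + 2) a
    rw [e1, e2, sub_sub_cancel] at h
    rw [h]
  · rw [nbh3]
    simp only [sqh]
    have h := ph_side3 (a + 3) t
    have e1 : a + 3 + 1 = a := (by decide : ∀ a : Fin 4, a + 3 + 1 = a) a
    rw [e1] at h
    rw [h, ph_side0, T.glue f (a + 3) ((1 + t) / 2) ⟨by linarith, by linarith⟩]
    congr 2
    ring

theorem meeth (c d : T.F × Fin 4) (hcd : c ≠ d) :
    (∀ p ∈ I2, ∀ q ∈ I2, sqh T c p ≠ sqh T d q) ∨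
    (∃ i j : Fin 4, ∀ p ∈ I2, ∀ q ∈ I2, sqh T c p = sqh T d q ↔ p = side i 0 ∧ q = side j 0) ∨
    (∃ i j : Fin 4, nbh T.nb (c, i) = (d, j) ∧ ∀ p ∈ I2, ∀ q ∈ I2, sqh T c p = sqh T d q ↔
      ∃ t ∈ Set.Icc (0 : ℝ) 1, p = side i t ∧ q = side j (1 - t)) := by
  obtain ⟨f, a⟩ := c
  obtain ⟨g, b⟩ := d
  by_cases hfg : f = g
  · subst hfg
    rcases four a b with rfl | rfl | rfl | rfl
    · exact absurd rfl hcd
    · right; right
      refine ⟨a + 1, a + 3, nbh1 _ _ _, fun p hp q hq => ?_⟩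
      rw [sqh_same T hp hq, ph_adj hp hq]
    · right; left
      refine ⟨a + 2, a, fun p hp q hq => ?_⟩
      rw [sqh_same T hp hq, ph_opp hp hq]
    · right; right
      refine ⟨a + 2, a, nbh2 _ _ _, fun p hp q hq => ?_⟩
      rw [sqh_same T hp hq]
      have h := ph_adj (a := a + 3) hq hp
      have e1 : a + 3 + 1 = a := (by decide : ∀ a : Fin 4, a + 3 + 1 = a) a
      have e2 : a + 3 + 3 = a + 2 := (by decide : ∀ a : Fin 4, a + 3 + 3 = a + 2) a
      rw [e1, e2] at h
      rw [eq_comm, h]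
      constructor
      · rintro ⟨t, ht, hq', hp'⟩
        exact ⟨1 - t, ⟨by linarith [ht.2], by linarith [ht.1]⟩, hp', by rw [sub_sub_cancel]; exact hq'⟩
      · rintro ⟨t, ht, hp', hq'⟩
        exact ⟨1 - t, ⟨by linarith [ht.2], by linarith [ht.1]⟩, hq', by rw [sub_sub_cancel]; exact hp'⟩
  rcases T.meet f g hfg with h | ⟨i, j, h⟩ | ⟨i, j, hnb, h⟩
  · left
    intro p hp q hq
    exact h _ (ph_mem hp) _ (ph_mem hq)
  · by_cases hai : a = i ∧ b = j
    · obtain ⟨rfl, rfl⟩ := hai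
      right; left
      refine ⟨a, b, fun p hp q hq => ?_⟩
      unfold sqh
      rw [h _ (ph_mem hp) _ (ph_mem hq), ph_corner hp, ph_corner hq]
      simp
    · left
      intro p hp q hq he
      unfold sqh at he
      rw [h _ (ph_mem hp) _ (ph_mem hq), ph_corner hp, ph_corner hq] at he
      exact hai ⟨he.1.1, he.2.1⟩
  · have hnb' : T.nb (g, j) = (f, i) := by rw [← hnb, T.nb_nb]
    -- the four cases
    have key : ∀ p ∈ I2, ∀ q ∈ I2, sqh T (f, a) p = sqh T (g, b) q → ∃ t ∈ Set.Icc (0 : ℝ) 1,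
        ((a = i ∧ p = side i (2 * t) ∧ t ≤ 1 / 2) ∨
          (a = i + 1 ∧ p = side i (2 * t - 1) ∧ 1 / 2 ≤ t)) ∧
        ((b = j ∧ q = side j (2 * (1 - t)) ∧ 1 - t ≤ 1 / 2) ∨
          (b = j + 1 ∧ q = side j (2 * (1 - t) - 1) ∧ 1 / 2 ≤ 1 - t)) := by
      intro p hp q hq he
      unfold sqh at he
      rw [h _ (ph_mem hp) _ (ph_mem hq)] at he
      obtain ⟨t, ht, h1, h2⟩ := he
      exact ⟨t, ht, ph_side hp h1, ph_side hq h2⟩
    have hi1 : i ≠ i + 1 := (by decide : ∀ i : Fin 4, i ≠ i + 1) i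
    have hj1 : j ≠ j + 1 := (by decide : ∀ j : Fin 4, j ≠ j + 1) j
    by_cases hA : (a = i ∨ a = i + 1) ∧ (b = j ∨ b = j + 1)
    swap
    · left
      intro p hp q hq he
      obtain ⟨t, _, h1, h2⟩ := key p hp q hq he
      apply hA
      constructor
      · rcases h1 with h1 | h1
        · exact Or.inl h1.1
        · exact Or.inr h1.1
      · rcases h2 with h2 | h2
        · exact Or.inl h2.1
        · exact Or.inr h2.1
    have back : ∀ (p q : ℝ × ℝ), p ∈ I2 → q ∈ I2 → ∀ t ∈ Set.Icc (0 : ℝ) 1, ph a p = side i t →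
        ph b q = side j (1 - t) → sqh T (f, a) p = sqh T (g, b) q := by
      intro p q hp hq t ht h1 h2
      unfold sqh
      rw [h _ (ph_mem hp) _ (ph_mem hq)]
      exact ⟨t, ht, h1, h2⟩
    obtain ⟨rfl | rfl, rfl | rfl⟩ := hA
    · -- (i, j): the middle of the side
      right; left
      refine ⟨a + 1, b + 1, fun p hp q hq => ⟨fun he => ?_, ?_⟩⟩
      · obtain ⟨t, ht, h1, h2⟩ := key p hp q hq he
        have h1' := h1.resolve_right (fun h' => hi1 h'.1)
        have h2' := h2.resolve_right (fun h' => hj1 h'.1)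
        have ht2 : t = 1 / 2 := by linarith [h1'.2.2, h2'.2.2]
        rw [h1'.2.1, h2'.2.1, ht2, ← side_one, ← side_one]
        norm_num
      · rintro ⟨rfl, rfl⟩
        refine back _ _ hp hq (1 / 2) ⟨by norm_num, by norm_num⟩ ?_ ?_
        · rw [ph_c1]
        · rw [ph_c1]; norm_num
    · -- (i, j + 1)
      right; right
      refine ⟨a, j, ?_, fun p hp q hq => ⟨fun he => ?_, ?_⟩⟩
      · rw [nbh0, hnb]
      · obtain ⟨t, ht, h1, h2⟩ := key p hp q hq he
        have h1' := h1.resolve_right (fun h' => hi1 h'.1)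
        have h2' := h2.resolve_left (fun h' => hj1 h'.1.symm)
        refine ⟨2 * t, ⟨by linarith [ht.1], by linarith [h1'.2.2]⟩, h1'.2.1, ?_⟩
        rw [h2'.2.1]
        congr 1; ring
      · rintro ⟨t, ht, rfl, rfl⟩
        refine back _ _ hp hq (t / 2) ⟨by linarith [ht.1], by linarith [ht.2]⟩ ?_ ?_
        · rw [ph_side0]
        · rw [ph_side3]; congr 1; ring
    · -- (i + 1, j)
      right; right
      refine ⟨i, b, ?_, fun p hp q hq => ⟨fun he => ?_, ?_⟩⟩
      · rw [nbh3', hnb]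
      · obtain ⟨t, ht, h1, h2⟩ := key p hp q hq he
        have h1' := h1.resolve_left (fun h' => hi1 h'.1.symm)
        have h2' := h2.resolve_right (fun h' => hj1 h'.1)
        refine ⟨2 * t - 1, ⟨by linarith [h1'.2.2], by linarith [ht.2]⟩, h1'.2.1, ?_⟩
        rw [h2'.2.1]
        congr 1; ring
      · rintro ⟨t, ht, rfl, rfl⟩
        refine back _ _ hp hq ((1 + t) / 2) ⟨by linarith [ht.1], by linarith [ht.2]⟩ ?_ ?_
        · rw [ph_side3]
        · rw [ph_side0]; congr 1; ring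
    · -- (i + 1, j + 1)
      right; left
      refine ⟨i, j, fun p hp q hq => ⟨fun he => ?_, ?_⟩⟩
      · obtain ⟨t, ht, h1, h2⟩ := key p hp q hq he
        have h1' := h1.resolve_left (fun h' => hi1 h'.1.symm)
        have h2' := h2.resolve_left (fun h' => hj1 h'.1.symm)
        have ht2 : t = 1 / 2 := by linarith [h1'.2.2, h2'.2.2]
        rw [h1'.2.1, h2'.2.1, ht2]
        norm_num
      · rintro ⟨rfl, rfl⟩
        refine back _ _ hp hq (1 / 2) ⟨by norm_num, by norm_num⟩ ?_ ?_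
        · rw [ph_side3]; norm_num
        · rw [ph_side3]; norm_num

section cyc

/-- the rotation -/
def rot {F : Type u} (nb : F × Fin 4 → F × Fin 4) (x : F × Fin 4) : F × Fin 4 := nb (x.1, x.2 - 1)

theorem rot_corner (f : T.F) (a : Fin 4) : rot (nbh T.nb) ((f, a), a) =
    ((rot T.nb (f, a)), (rot T.nb (f, a)).2) := by
  have h := nbh3 T.nb f a
  have e : a + 3 = a - 1 := (by decide : ∀ a : Fin 4, a + 3 = a - 1) a
  rw [e] at h
  exact h

theorem rot_center (f : T.F) (a : Fin 4) : rot (nbh T.nb) ((f, a), a + 2) =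
    ((f, a + 1), (a + 1) + 2) := by
  have h := nbh1 T.nb f a
  have e : a + 1 = a + 2 - 1 := (by decide : ∀ a : Fin 4, a + 1 = a + 2 - 1) a
  have e2 : a + 3 = a + 1 + 2 := (by decide : ∀ a : Fin 4, a + 3 = a + 1 + 2) a
  rw [e2] at h
  unfold rot
  simp only
  rw [← e]
  exact h

theorem rot_mid1 (f : T.F) (a : Fin 4) : rot (nbh T.nb) ((f, a), a + 1) =
    (((T.nb (f, a)).1, (T.nb (f, a)).2 + 1), (T.nb (f, a)).2) := by
  have h := nbh0 T.nb f a
  unfold rot
  simp only [add_sub_cancel_right]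
  exact h

theorem rot_mid2 (f : T.F) (k : Fin 4) : rot (nbh T.nb) ((f, k + 1), k) =
    ((f, k), k + 1) := by
  have h := nbh2 T.nb f (k + 1)
  have e1 : k + 1 + 2 = k - 1 := (by decide : ∀ k : Fin 4, k + 1 + 2 = k - 1) k
  have e2 : k + 1 + 3 = k := (by decide : ∀ k : Fin 4, k + 1 + 3 = k) k
  rw [e1, e2] at h
  exact h

theorem cornerh {n : ℕ} {f g : T.F} {a b : Fin 4} (h : (rot T.nb)^[n] (f, a) = (g, b)) :
    (rot (nbh T.nb))^[n] ((f, a), a) = ((g, b), b) := by
  induction n generalizing f a with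
  | zero =>
    simp only [Function.iterate_zero, id_eq] at h ⊢
    rw [Prod.ext_iff] at h
    simp only at h
    rw [h.1, h.2]
  | succ n ih =>
    rw [Function.iterate_succ_apply] at h ⊢
    rw [rot_corner]
    exact ih h

/-- `y` is reached from `x` -/
def Rch (x y : (T.F × Fin 4) × Fin 4) : Prop := ∃ n : ℕ, (rot (nbh T.nb))^[n] x = y

theorem Rch.refl (x : (T.F × Fin 4) × Fin 4) : Rch T x x := ⟨0, rfl⟩

theorem Rch.step {x y : (T.F × Fin 4) × Fin 4} (h : Rch T (rot (nbh T.nb) x) y) : Rch T x y := by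
  obtain ⟨n, hn⟩ := h
  exact ⟨n + 1, by rw [Function.iterate_succ_apply]; exact hn⟩

theorem rch_center (f : T.F) (a b : Fin 4) : Rch T ((f, a), a + 2) ((f, b), b + 2) := by
  rcases four a b with rfl | rfl | rfl | rfl
  · exact Rch.refl T _
  · apply Rch.step; rw [rot_center]; exact Rch.refl T _
  · apply Rch.step; rw [rot_center]
    apply Rch.step; rw [rot_center]
    have e : a + 1 + 1 = a + 2 := (by decide : ∀ a : Fin 4, a + 1 + 1 = a + 2) a
    rw [e]; exact Rch.refl T _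
  · apply Rch.step; rw [rot_center]
    apply Rch.step; rw [rot_center]
    apply Rch.step; rw [rot_center]
    have e : a + 1 + 1 + 1 = a + 3 := (by decide : ∀ a : Fin 4, a + 1 + 1 + 1 = a + 3) a
    rw [e]; exact Rch.refl T _

/-- the four flags at the middle of a side -/
theorem rch_mid {f g : T.F} {k l : Fin 4} (h : T.nb (f, k) = (g, l)) :
    ∀ x y : (T.F × Fin 4) × Fin 4,
    (x = ((f, k), k + 1) ∨ x = ((f, k + 1), k) ∨ x = ((g, l), l + 1) ∨ x = ((g, l + 1), l)) →
    (y = ((f, k), k + 1) ∨ y = ((f, k + 1), k) ∨ y = ((g, l), l + 1) ∨ y = ((g, l + 1), l)) →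
    Rch T x y := by
  have h' : T.nb (g, l) = (f, k) := by rw [← h, T.nb_nb]
  have s1 : rot (nbh T.nb) ((f, k), k + 1) = ((g, l + 1), l) := by rw [rot_mid1, h]
  have s2 : rot (nbh T.nb) ((g, l + 1), l) = ((g, l), l + 1) := rot_mid2 T g l
  have s3 : rot (nbh T.nb) ((g, l), l + 1) = ((f, k + 1), k) := by rw [rot_mid1, h']
  have s4 : rot (nbh T.nb) ((f, k + 1), k) = ((f, k), k + 1) := rot_mid2 T f k
  rintro x y (rfl | rfl | rfl | rfl) (rfl | rfl | rfl | rfl)
  · exact Rch.refl T _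
  · apply Rch.step; rw [s1]; apply Rch.step; rw [s2]; apply Rch.step; rw [s3]; exact Rch.refl T _
  · apply Rch.step; rw [s1]; apply Rch.step; rw [s2]; exact Rch.refl T _
  · apply Rch.step; rw [s1]; exact Rch.refl T _
  · apply Rch.step; rw [s4]; exact Rch.refl T _
  · exact Rch.refl T _
  · apply Rch.step; rw [s4]; apply Rch.step; rw [s1]; apply Rch.step; rw [s2]; exact Rch.refl T _
  · apply Rch.step; rw [s4]; apply Rch.step; rw [s1]; exact Rch.refl T _
  · apply Rch.step; rw [s3]; apply Rch.step; rw [s4]; exact Rch.refl T _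
  · apply Rch.step; rw [s3]; exact Rch.refl T _
  · exact Rch.refl T _
  · apply Rch.step; rw [s3]; apply Rch.step; rw [s4]; apply Rch.step; rw [s1]; exact Rch.refl T _
  · apply Rch.step; rw [s2]; apply Rch.step; rw [s3]; apply Rch.step; rw [s4]; exact Rch.refl T _
  · apply Rch.step; rw [s2]; apply Rch.step; rw [s3]; exact Rch.refl T _
  · apply Rch.step; rw [s2]; exact Rch.refl T _
  · exact Rch.refl T _

/-- the type of a flag -/
theorem flag (f : T.F) (a i : Fin 4) :
    (i = a ∧ ph a (side i 0) = side a 0) ∨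
    (∃ k, ph a (side i 0) = side k (1 / 2) ∧
      (((f, a), i) = ((f, k), k + 1) ∨ ((f, a), i) = ((f, k + 1), k))) ∨
    (i = a + 2 ∧ ph a (side i 0) = ((1 / 2 : ℝ), (1 / 2 : ℝ))) := by
  rcases four a i with rfl | rfl | rfl | rfl
  · left; exact ⟨rfl, ph_c0 _⟩
  · right; left; exact ⟨a, ph_c1 _, Or.inl rfl⟩
  · right; right; exact ⟨rfl, ph_c2 _⟩
  · right; left
    refine ⟨a + 3, ph_c3 _, Or.inr ?_⟩
    have e : a + 3 + 1 = a := (by decide : ∀ a : Fin 4, a + 3 + 1 = a) a
    rw [e]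

theorem corner_mem (i : Fin 4) : side i 0 ∈ I2 := side_mem ⟨le_rfl, zero_le_one⟩

theorem mid_mem (i : Fin 4) : side i (1 / 2) ∈ I2 := side_mem ⟨by norm_num, by norm_num⟩

theorem center_mem : ((1 / 2 : ℝ), (1 / 2 : ℝ)) ∈ I2 := by
  rw [mem_I2]; norm_num

theorem cycleh (c d : T.F × Fin 4) (i j : Fin 4) (h : sqh T c (side i 0) = sqh T d (side j 0)) :
    Rch T (c, i) (d, j) := by
  obtain ⟨f, a⟩ := c
  obtain ⟨g, b⟩ := d
  unfold sqh at h
  simp only at h
  rcases flag T f a i with ⟨rfl, h1⟩ | ⟨k, h1, hx⟩ | ⟨rfl, h1⟩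
  · -- corner
    rw [h1] at h
    rcases flag T g b j with ⟨rfl, h2⟩ | ⟨l, h2, hy⟩ | ⟨rfl, h2⟩
    · rw [h2] at h
      obtain ⟨n, hn⟩ := T.cycle f g i j h
      exact ⟨n, cornerh T hn⟩
    · exfalso
      rw [h2] at h
      by_cases hfg : f = g
      · subst hfg
        have := T.inj f (corner_mem _) (mid_mem _) h
        have h3 := (side_mid this).2
        norm_num at h3
      · rcases T.meet f g hfg with h' | ⟨i', j', h'⟩ | ⟨i', j', hnb, h'⟩
        · exact h' _ (corner_mem _) _ (mid_mem _) h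
        · have := ((h' _ (corner_mem _) _ (mid_mem _)).1 h).2
          have h3 := (side_mid this.symm).2
          norm_num at h3
        · obtain ⟨t, ht, e1, e2⟩ := (h' _ (corner_mem _) _ (mid_mem _)).1 h
          have h3 := (side_mid e2.symm).2
          rcases side_corner e1.symm with h4 | h4
          · linarith [h4.1]
          · linarith [h4.1]
    · exfalso
      rw [h2] at h
      by_cases hfg : f = g
      · subst hfg
        exact side_center (T.inj f (corner_mem _) center_mem h)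
      · rcases T.meet f g hfg with h' | ⟨i', j', h'⟩ | ⟨i', j', hnb, h'⟩
        · exact h' _ (corner_mem _) _ center_mem h
        · exact side_center ((h' _ (corner_mem _) _ center_mem).1 h).2.symm
        · obtain ⟨t, ht, e1, e2⟩ := (h' _ (corner_mem _) _ center_mem).1 h
          exact side_center e2.symm
  · -- midpoint
    rw [h1] at h
    rcases flag T g b j with ⟨rfl, h2⟩ | ⟨l, h2, hy⟩ | ⟨rfl, h2⟩
    · exfalso
      rw [h2] at h
      by_cases hfg : f = g
      · subst hfg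
        have := T.inj f (mid_mem _) (corner_mem _) h
        have h3 := (side_mid this.symm).2
        norm_num at h3
      · rcases T.meet f g hfg with h' | ⟨i', j', h'⟩ | ⟨i', j', hnb, h'⟩
        · exact h' _ (mid_mem _) _ (corner_mem _) h
        · have := ((h' _ (mid_mem _) _ (corner_mem _)).1 h).1
          have h3 := (side_mid this.symm).2
          norm_num at h3
        · obtain ⟨t, ht, e1, e2⟩ := (h' _ (mid_mem _) _ (corner_mem _)).1 h
          have h3 := (side_mid e1.symm).2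
          rcases side_corner e2.symm with h4 | h4
          · linarith [h4.1]
          · linarith [h4.1]
    · rw [h2] at h
      by_cases hfg : f = g
      · subst hfg
        have := T.inj f (mid_mem _) (mid_mem _) h
        have h3 := (side_mid this).1
        subst h3
        exact rch_mid T (Prod.mk.eta (p := T.nb (f, l))).symm _ _
          (by rcases hx with hx | hx <;> simp [hx]) (by rcases hy with hy | hy <;> simp [hy])
      · rcases T.meet f g hfg with h' | ⟨i', j', h'⟩ | ⟨i', j', hnb, h'⟩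
        · exact absurd h (h' _ (mid_mem _) _ (mid_mem _))
        · exfalso
          have := ((h' _ (mid_mem _) _ (mid_mem _)).1 h).1
          have h3 := (side_mid this.symm).2
          norm_num at h3
        · obtain ⟨t, ht, e1, e2⟩ := (h' _ (mid_mem _) _ (mid_mem _)).1 h
          have h3 := (side_mid e1.symm).1
          have h4 := (side_mid e2.symm).1
          subst h3; subst h4
          exact rch_mid T hnb _ _
            (by rcases hx with hx | hx <;> simp [hx]) (by rcases hy with hy | hy <;> simp [hy])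
    · exfalso
      rw [h2] at h
      by_cases hfg : f = g
      · subst hfg
        exact side_center (T.inj f (mid_mem _) center_mem h)
      · rcases T.meet f g hfg with h' | ⟨i', j', h'⟩ | ⟨i', j', hnb, h'⟩
        · exact h' _ (mid_mem _) _ center_mem h
        · exact side_center ((h' _ (mid_mem _) _ center_mem).1 h).2.symm
        · obtain ⟨t, ht, e1, e2⟩ := (h' _ (mid_mem _) _ center_mem).1 h
          exact side_center e2.symm
  · -- center
    rw [h1] at h
    have hpb : ph b (side j 0) ∈ I2 := ph_mem (corner_mem _)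
    by_cases hfg : f = g
    · subst hfg
      have h3 := T.inj f center_mem hpb h
      rcases flag T f b j with ⟨rfl, h2⟩ | ⟨l, h2, hy⟩ | ⟨rfl, h2⟩
      · rw [h2] at h3; exact absurd h3.symm side_center
      · rw [h2] at h3; exact absurd h3.symm side_center
      · exact rch_center T f a b
    · exfalso
      rcases T.meet f g hfg with h' | ⟨i', j', h'⟩ | ⟨i', j', hnb, h'⟩
      · exact h' _ center_mem _ hpb h
      · exact side_center ((h' _ center_mem _ hpb).1 h).1.symm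
      · obtain ⟨t, ht, e1, e2⟩ := (h' _ center_mem _ hpb).1 h
        exact side_center e1.symm

end cyc

end Pool.Agent.TH317.CC.TH883

namespace Pool.Agent.TH317.CC

open Pool.Agent.TH317.CC.TH883

theorem tiling_half {M : Type u} [MetricSpace M] (T : SqTiling M) :
    ∃ (T' : SqTiling M) (e : T'.F ≃ T.F × Fin 2 × Fin 2), ∀ c, ∀ x y : ℝ,
      T'.sq c (x, y) = T.sq (e c).1 ((((e c).2.1 : ℕ) + x) / 2, (((e c).2.2 : ℕ) + y) / 2) := by
  refine ⟨{ F := T.F × Fin 4, sq := sqh T, nb := nbh T.nb, cont := ?_, inj := ?_,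
            nb_nb := nbh_nbh T, nb_ne := nbh_ne T, glue := glueh T, cover := ?_, locfin := ?_,
            meet := meeth T, cycle := cycleh T },
    Equiv.prodCongr (Equiv.refl _) pos, ?_⟩
  · intro c
    exact (T.cont c.1).comp (ph_cont c.2).continuousOn (fun p hp => ph_mem hp)
  · intro c p hp q hq h
    exact ph_inj (T.inj c.1 (ph_mem hp) (ph_mem hq) h)
  · intro x
    obtain ⟨f, p, hp, rfl⟩ := T.cover x
    obtain ⟨a, q, hq, rfl⟩ := ph_cover hp
    exact ⟨(f, a), q, hq, rfl⟩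
  · intro x
    obtain ⟨U, hU, hfin⟩ := T.locfin x
    refine ⟨U, hU, ?_⟩
    refine Set.Finite.subset (hfin.prod (Set.finite_univ (α := Fin 4))) ?_
    rintro ⟨f, a⟩ ⟨y, ⟨p, hp, rfl⟩, hyU⟩
    exact ⟨⟨_, ⟨ph a p, ph_mem hp, rfl⟩, hyU⟩, Set.mem_univ _⟩
  · rintro ⟨f, a⟩ x y
    simp only [Equiv.prodCongr_apply, Prod.map_apply, Equiv.refl_apply]
    rw [(pos_eq a).1, (pos_eq a).2]
    rfl

end Pool.Agent.TH317.CC
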