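import Pool.Agent.TH317.CC.Geo

/-!
# Halving a square tiling: geometry of the unit square (helper883, job 2569)
-/

set_option autoImplicit false

universe u

namespace Pool.Agent.TH317.CC.TH883

open Pool.Agent.TH317.CC

/-- the homothety of ratio `1/2` centered at the corner `a` -/
noncomputable def ph (a : Fin 4) (p : ℝ × ℝ) : ℝ × ℝ :=
  (((side a 0).1 + p.1) / 2, ((side a 0).2 + p.2) / 2)

theorem mem_I2 {p : ℝ × ℝ} : p ∈ I2 ↔ (0 ≤ p.1 ∧ 0 ≤ p.2) ∧ p.1 ≤ 1 ∧ p.2 ≤ 1 := by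
  unfold I2
  rw [Set.mem_Icc, Prod.le_def, Prod.le_def]

theorem side_mem {k : Fin 4} {t : ℝ} (ht : t ∈ Set.Icc (0 : ℝ) 1) : side k t ∈ I2 := by
  rw [mem_I2]
  obtain ⟨h0, h1⟩ := ht
  fin_cases k <;> simp [side] <;> constructor <;> linarith

theorem ph_mem {a : Fin 4} {p : ℝ × ℝ} (hp : p ∈ I2) : ph a p ∈ I2 := by
  rw [mem_I2] at *
  obtain ⟨⟨h1, h2⟩, h3, h4⟩ := hp
  fin_cases a <;> simp [ph, side] <;> refine ⟨⟨?_, ?_⟩, ?_, ?_⟩ <;> linarith

theorem ph_inj {a : Fin 4} {p q : ℝ × ℝ} (h : ph a p = ph a q) : p = q := by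
  unfold ph at h
  rw [Prod.ext_iff] at h
  obtain ⟨h1, h2⟩ := h
  simp only at h1 h2
  ext
  · linarith
  · linarith

theorem ph_cont (a : Fin 4) : Continuous (ph a) := by
  unfold ph
  fun_prop

theorem ph_side0 (a : Fin 4) (t : ℝ) : ph a (side a t) = side a (t / 2) := by
  fin_cases a <;> simp [ph, side] <;> ring

theorem ph_side3 (a : Fin 4) (t : ℝ) : ph (a + 1) (side a t) = side a ((1 + t) / 2) := by
  fin_cases a <;> simp [ph, side] <;> ring

theorem ph_side1 (a : Fin 4) (t : ℝ) :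
    ph a (side (a + 1) t) = ph (a + 1) (side (a + 3) (1 - t)) := by
  fin_cases a <;> simp [ph, side]

theorem ph_cover {p : ℝ × ℝ} (hp : p ∈ I2) : ∃ a : Fin 4, ∃ q ∈ I2, ph a q = p := by
  rw [mem_I2] at hp
  obtain ⟨⟨h1, h2⟩, h3, h4⟩ := hp
  rcases le_total p.1 (1 / 2) with hx | hx <;> rcases le_total p.2 (1 / 2) with hy | hy
  · refine ⟨0, (2 * p.1, 2 * p.2), ?_, ?_⟩
    · rw [mem_I2]; refine ⟨⟨?_, ?_⟩, ?_, ?_⟩ <;> simp only <;> linarith
    · ext <;> simp [ph, side]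
  · refine ⟨3, (2 * p.1, 2 * p.2 - 1), ?_, ?_⟩
    · rw [mem_I2]; refine ⟨⟨?_, ?_⟩, ?_, ?_⟩ <;> simp only <;> linarith
    · ext <;> simp [ph, side]
  · refine ⟨1, (2 * p.1 - 1, 2 * p.2), ?_, ?_⟩
    · rw [mem_I2]; refine ⟨⟨?_, ?_⟩, ?_, ?_⟩ <;> simp only <;> linarith
    · ext <;> simp [ph, side]
  · refine ⟨2, (2 * p.1 - 1, 2 * p.2 - 1), ?_, ?_⟩
    · rw [mem_I2]; refine ⟨⟨?_, ?_⟩, ?_, ?_⟩ <;> simp only <;> linarith
    · ext <;> simp [ph, side]

/-- two adjacent quarters meet in a side -/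
theorem ph_adj {a : Fin 4} {p q : ℝ × ℝ} (hp : p ∈ I2) (hq : q ∈ I2) :
    ph a p = ph (a + 1) q ↔
      ∃ t ∈ Set.Icc (0 : ℝ) 1, p = side (a + 1) t ∧ q = side (a + 3) (1 - t) := by
  constructor
  · intro h
    rw [mem_I2] at hp hq
    obtain ⟨⟨h1, h2⟩, h3, h4⟩ := hp
    obtain ⟨⟨h5, h6⟩, h7, h8⟩ := hq
    unfold ph at h
    rw [Prod.ext_iff] at h
    obtain ⟨e1, e2⟩ := h
    fin_cases a
    · simp [side] at e1 e2
      refine ⟨p.2, ⟨h2, h4⟩, ?_, ?_⟩ <;> ext <;> simp [side] <;> linarith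
    · simp [side] at e1 e2
      refine ⟨1 - p.1, ⟨by linarith, by linarith⟩, ?_, ?_⟩ <;> ext <;> simp [side] <;> linarith
    · simp [side] at e1 e2
      refine ⟨1 - p.2, ⟨by linarith, by linarith⟩, ?_, ?_⟩ <;> ext <;> simp [side] <;> linarith
    · simp [side] at e1 e2
      refine ⟨p.1, ⟨by linarith, by linarith⟩, ?_, ?_⟩ <;> ext <;> simp [side] <;> linarith
  · rintro ⟨t, _, rfl, rfl⟩
    exact ph_side1 a t

/-- two opposite quarters meet in a corner -/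
theorem ph_opp {a : Fin 4} {p q : ℝ × ℝ} (hp : p ∈ I2) (hq : q ∈ I2) :
    ph a p = ph (a + 2) q ↔ p = side (a + 2) 0 ∧ q = side a 0 := by
  rw [mem_I2] at hp hq
  obtain ⟨⟨h1, h2⟩, h3, h4⟩ := hp
  obtain ⟨⟨h5, h6⟩, h7, h8⟩ := hq
  constructor
  · intro h
    unfold ph at h
    rw [Prod.ext_iff] at h
    obtain ⟨e1, e2⟩ := h
    fin_cases a <;> simp [side] at e1 e2 <;> constructor <;> ext <;> simp [side] <;> linarith
  · rintro ⟨rfl, rfl⟩
    fin_cases a <;> simp [ph, side]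

/-- quarters touching a corner -/
theorem ph_corner {a i : Fin 4} {p : ℝ × ℝ} (hp : p ∈ I2) :
    ph a p = side i 0 ↔ a = i ∧ p = side i 0 := by
  rw [mem_I2] at hp
  obtain ⟨⟨h1, h2⟩, h3, h4⟩ := hp
  constructor
  · intro h
    unfold ph at h
    rw [Prod.ext_iff] at h
    obtain ⟨e1, e2⟩ := h
    fin_cases a <;> fin_cases i <;> simp [side] at e1 e2 <;>
      first
      | (exfalso; linarith)
      | (refine ⟨rfl, ?_⟩; ext <;> simp [side] <;> linarith)
  · rintro ⟨rfl, rfl⟩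
    fin_cases a <;> simp [ph, side]

/-- quarters touching a side -/
theorem ph_side {a i : Fin 4} {p : ℝ × ℝ} {t : ℝ} (hp : p ∈ I2) (h : ph a p = side i t) :
    (a = i ∧ p = side i (2 * t) ∧ t ≤ 1 / 2) ∨ (a = i + 1 ∧ p = side i (2 * t - 1) ∧ 1 / 2 ≤ t) := by
  rw [mem_I2] at hp
  obtain ⟨⟨h1, h2⟩, h3, h4⟩ := hp
  unfold ph at h
  rw [Prod.ext_iff] at h
  obtain ⟨e1, e2⟩ := h
  fin_cases a <;> fin_cases i <;> simp [side] at e1 e2 <;>
    first
    | (exfalso; linarith)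
    | (left; refine ⟨rfl, ?_, by linarith⟩; ext <;> simp [side] <;> linarith)
    | (right; refine ⟨rfl, ?_, by linarith⟩; ext <;> simp [side] <;> linarith)

theorem side_one (i : Fin 4) : side i 1 = side (i + 1) 0 := by
  fin_cases i <;> simp [side]

theorem side_inj {i : Fin 4} {s t : ℝ} (h : side i s = side i t) : s = t := by
  fin_cases i <;> simp [side] at h <;> linarith

theorem corner_inj {i j : Fin 4} (h : side i 0 = side j 0) : i = j := by
  fin_cases i <;> fin_cases j <;> simp [side] at h <;> rfl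

theorem side_corner {i j : Fin 4} {t : ℝ} (h : side i t = side j 0) :
    (t = 0 ∧ j = i) ∨ (t = 1 ∧ j = i + 1) := by
  fin_cases i <;> fin_cases j <;> simp [side] at h <;>
    first
    | (exfalso; linarith)
    | (left; exact ⟨by linarith, rfl⟩)
    | (right; exact ⟨by linarith, rfl⟩)

theorem side_mid {i j : Fin 4} {t : ℝ} (h : side i t = side j (1 / 2)) : j = i ∧ t = 1 / 2 := by
  fin_cases i <;> fin_cases j <;> simp [side] at h <;>
    first
    | (exfalso; linarith)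
    | exact ⟨rfl, by linarith⟩

theorem side_center {i : Fin 4} {t : ℝ} : side i t ≠ ((1 / 2 : ℝ), (1 / 2 : ℝ)) := by
  intro h
  rw [Prod.ext_iff] at h
  obtain ⟨h1, h2⟩ := h
  fin_cases i <;> simp [side] at h1 h2

theorem ph_c0 (a : Fin 4) : ph a (side a 0) = side a 0 := by
  rw [ph_side0]; norm_num

theorem ph_c1 (a : Fin 4) : ph a (side (a + 1) 0) = side a (1 / 2) := by
  fin_cases a <;> simp [ph, side] <;> norm_num

theorem ph_c2 (a : Fin 4) : ph a (side (a + 2) 0) = ((1 / 2 : ℝ), (1 / 2 : ℝ)) := by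
  fin_cases a <;> simp [ph, side]

theorem ph_c3 (a : Fin 4) : ph a (side (a + 3) 0) = side (a + 3) (1 / 2) := by
  fin_cases a <;> simp [ph, side] <;> norm_num

end Pool.Agent.TH317.CC.TH883
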